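import Pool.Agent.H88.GHK.TRF

/-!
# MP_52e316_nt, row IPT of ghk_modules: the scalar product and the translates (second copy)
-/

set_option autoImplicit false

namespace Pool.Agent.H88.GHK

open MeasureTheory Pool.Agent.H34.GM Pool.Agent.H34.GZ Pool.Agent.H34.GU Pool.Agent.H34.GA
open Pool.Agent.H68.GHK
open Pool.Agent.H46.GU (cR_det fz wd fz_eq fn_meas wd_meas dom_det)
open scoped ENNReal

theorem int3 {X : Type} [MeasurableSpace X] {μ : Measure X} {f g h : X → ℝ}
    (hf : Integrable f μ) (hg : Integrable g μ) (hh : Integrable h μ) (a b : ℝ) :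
    ∫ z, (f z + a * g z + b * h z) ∂μ = ∫ z, f z ∂μ + a * ∫ z, g z ∂μ + b * ∫ z, h z ∂μ := by
  have h1 : Integrable (fun z => f z + a * g z) μ := hf.add (hg.const_mul a)
  rw [integral_add h1 (hh.const_mul b), integral_add hf (hg.const_mul a), integral_const_mul,
    integral_const_mul]

/-- bounded continuous automorphic functions -/
structure Af (m N : ℕ) [NeZero N] (F : Mat m → VN m N → ℂ) : Prop where
  cont : ∀ x, ContinuousOn (fun g => F g x) {g | g.det ≠ 0}
  auto : ∀ γ : ZM m, IsUnit γ → ∀ g x, g.det ≠ 0 → F (cR γ * g) (ac N γ x) = F g x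
  scal : ∀ r : ℝ, 0 < r → ∀ g x, g.det ≠ 0 → F (r • g) x = F g x
  bdd : ∃ B : ℝ, ∀ g x, g.det ≠ 0 → ‖F g x‖ ≤ B

set_option linter.unusedSectionVars false

variable {m N : ℕ} [NeZero N] {F G : Mat m → VN m N → ℂ} {D : Set (V m)}
  {T : ℕ → Finset (ZM m)} {lam lam' : ℕ → ℂ}

theorem af_of (hF : HecA m N T F lam) : Af m N F := ⟨hF.cont, hF.auto, hF.scal, hF.bdd⟩

theorem af_rt (hF : Af m N F) {u : Mat m} (hu : u.det ≠ 0) : Af m N (rt u F) := by
  obtain ⟨B, hB⟩ := hF.bdd
  have hd : ∀ {g : Mat m}, g.det ≠ 0 → (g * u).det ≠ 0 := by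
    intro g hg
    rw [Matrix.det_mul]
    exact mul_ne_zero hg hu
  refine ⟨?_, ?_, ?_, ?_⟩
  · intro x
    have h1 : ContinuousOn (fun g : Mat m => g * u) {g | g.det ≠ 0} :=
      (continuous_id.mul continuous_const).continuousOn
    exact (hF.cont x).comp h1 fun g hg => hd hg
  · intro γ hγ g x hg
    show F (cR γ * g * u) (ac N γ x) = F (g * u) x
    rw [Matrix.mul_assoc]
    exact hF.auto γ hγ _ x (hd hg)
  · intro r hr g x hg
    show F (r • g * u) x = F (g * u) x
    rw [Matrix.smul_mul]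
    exact hF.scal r hr _ x (hd hg)
  · exact ⟨B, fun g x hg => hB _ x (hd hg)⟩

theorem af_comb (hF : Af m N F) (hG : Af m N G) (c : ℂ) :
    Af m N (fun g x => F g x + c * G g x) := by
  obtain ⟨B1, hB1⟩ := hF.bdd
  obtain ⟨B2, hB2⟩ := hG.bdd
  refine ⟨fun x => (hF.cont x).add (continuousOn_const.mul (hG.cont x)), ?_, ?_, ?_⟩
  · intro γ hγ g x hg
    show F (cR γ * g) (ac N γ x) + c * G (cR γ * g) (ac N γ x) = F g x + c * G g x
    rw [hF.auto γ hγ g x hg, hG.auto γ hγ g x hg]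
  · intro r hr g x hg
    show F (r • g) x + c * G (r • g) x = F g x + c * G g x
    rw [hF.scal r hr g x hg, hG.scal r hr g x hg]
  · refine ⟨B1 + ‖c‖ * B2, fun g x hg => ?_⟩
    show ‖F g x + c * G g x‖ ≤ _
    refine (norm_add_le _ _).trans (add_le_add (hB1 g x hg) ?_)
    rw [norm_mul]
    exact mul_le_mul_of_nonneg_left (hB2 g x hg) (norm_nonneg _)

theorem af_inv (hF : Af m N F) {γ : ZM m} (hγ : IsUnit γ)
    (hbij : Function.Bijective (ac N γ : VN m N → VN m N))
    {z : V m} (hz : (mt z).det ≠ 0) :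
    wd F (fun i j => (cR γ * mt z) i j) = wd F z := by
  have hd : (mt (fun i j => (cR γ * mt z) i j) : Mat m).det ≠ 0 := by
    show (cR γ * mt z).det ≠ 0
    rw [Matrix.det_mul]
    exact mul_ne_zero (cR_det hγ) hz
  unfold wd
  rw [← Equiv.sum_comp (Equiv.ofBijective _ hbij) fun y =>
    ENNReal.ofReal ‖fz F y (fun i j => (cR γ * mt z) i j)‖ ^ 2]
  refine Finset.sum_congr rfl fun x _ => ?_
  rw [fz_eq F _ hd, fz_eq F _ hz]
  have h1 : F (mt (fun i j => (cR γ * mt z) i j)) (Equiv.ofBijective _ hbij x) =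
      F (mt z) x := hF.auto γ hγ (mt z) x hz
  rw [h1]

theorem af_scal (hF : Af m N F) {c : ℝ} (hc : 0 < c) {z : V m} (hz : (mt z).det ≠ 0) :
    wd F (c • z) = wd F z := by
  have h0 : (mt (c • z) : Mat m) = c • mt z := rfl
  have hd : (mt (c • z)).det ≠ 0 := by
    rw [h0, Matrix.det_smul]
    exact mul_ne_zero (pow_ne_zero _ hc.ne') hz
  unfold wd
  refine Finset.sum_congr rfl fun x _ => ?_
  rw [fz_eq F _ hd, fz_eq F _ hz, h0, hF.scal c hc (mt z) x hz]

theorem dom_fin (hVLM : T_VLM) (hS : SysZ m N T D) : IsFiniteMeasure ((hm m).restrict D) := by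
  obtain ⟨C, K, -, hvl⟩ := hVLM m hS.one_le
  have hfin : hm m D < ⊤ := lt_of_le_of_lt (hvl D hS.dom).1 ENNReal.ofReal_lt_top
  exact ⟨by rwa [Measure.restrict_apply_univ]⟩

theorem af_sm (hS : SysZ m N T D) (hF : Af m N F) (x : VN m N) :
    AEStronglyMeasurable (fun z : V m => F (mt z) x) ((hm m).restrict D) := by
  have h1 : ContinuousOn (fun z : V m => F (mt z) x) D :=
    (hF.cont x).comp Pool.Agent.H34.GM.th1_cmt.continuousOn
      (fun z hz => dom_det hS.one_le hS.dom hz)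
  exact h1.aestronglyMeasurable hS.dom.meas

theorem af_ae (hS : SysZ m N T D) {B : ℝ} (hB : ∀ g x, g.det ≠ 0 → ‖F g x‖ ≤ B) (x : VN m N) :
    ∀ᵐ z ∂(hm m).restrict D, ‖F (mt z) x‖ ≤ B := by
  rw [ae_restrict_iff' hS.dom.meas]
  exact Filter.Eventually.of_forall fun z hz => hB (mt z) x (dom_det hS.one_le hS.dom hz)

theorem af_int (hVLM : T_VLM) (hS : SysZ m N T D) (hF : Af m N F) (hG : Af m N G)
    (x : VN m N) :
    Integrable (fun z : V m => F (mt z) x * (starRingEnd ℂ) (G (mt z) x))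
      ((hm m).restrict D) := by
  have hfm := dom_fin hVLM hS
  obtain ⟨B1, hB1⟩ := hF.bdd
  obtain ⟨B2, hB2⟩ := hG.bdd
  refine Integrable.of_bound ((af_sm hS hF x).mul
    (Complex.continuous_conj.comp_aestronglyMeasurable (af_sm hS hG x))) (|B1| * |B2|) ?_
  filter_upwards [af_ae hS hB1 x, af_ae hS hB2 x] with z h1 h2
  rw [norm_mul, RCLike.norm_conj]
  exact mul_le_mul (h1.trans (le_abs_self _)) (h2.trans (le_abs_self _)) (norm_nonneg _)
    (abs_nonneg _)

theorem af_intn (hVLM : T_VLM) (hS : SysZ m N T D) (hF : Af m N F) (hG : Af m N G)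
    (x : VN m N) :
    Integrable (fun z : V m => ‖F (mt z) x‖ * ‖G (mt z) x‖) ((hm m).restrict D) := by
  have h1 := (af_int hVLM hS hF hG x).norm
  refine h1.congr (Filter.Eventually.of_forall fun z => ?_)
  show ‖F (mt z) x * (starRingEnd ℂ) (G (mt z) x)‖ = _
  rw [norm_mul, RCLike.norm_conj]

theorem af_int2 (hVLM : T_VLM) (hS : SysZ m N T D) (hF : Af m N F) (x : VN m N) :
    Integrable (fun z : V m => ‖F (mt z) x‖ ^ 2) ((hm m).restrict D) := by
  refine (af_intn hVLM hS hF hF x).congr (Filter.Eventually.of_forall fun z => ?_)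
  show ‖F (mt z) x‖ * ‖F (mt z) x‖ = ‖F (mt z) x‖ ^ 2
  rw [sq]

theorem af_nU (hVLM : T_VLM) (hMSR : T_MSR) (hS : SysZ m N T D) (hF : Af m N F) :
    ∫⁻ z in D, wd F z ∂(hm m) = ENNReal.ofReal (nU D F) := by
  rw [← Pool.Agent.H91.GA.rrn_mass hMSR hS.one_le hS.dom hF.cont]
  unfold nU
  rw [ENNReal.ofReal_sum_of_nonneg (fun x _ => integral_nonneg fun z => by positivity)]
  refine Finset.sum_congr rfl fun x _ => ?_
  exact (ofReal_integral_eq_lintegral_ofReal (af_int2 hVLM hS hF x)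
    (Filter.Eventually.of_forall fun z => by positivity)).symm

theorem af_nu_rt (hVLM : T_VLM) (hRTI : T_RTI) (hALU : T_ALU) (hMSR : T_MSR)
    (hS : SysZ m N T D) (hF : Af m N F) {u : Mat m} (hu : u.det ≠ 0) :
    nU D (rt u F) = nU D F := by
  have hbij := (hALU m N hS.one_le hS.two_le).2.2.2.2.2
  have h0 : ∫⁻ z in D, wd (rt u F) z ∂(hm m) = ∫⁻ z in D, wd F z ∂(hm m) := by
    rw [← hRTI m hS.one_le D hS.dom (wd F) (wd_meas hMSR hF.cont)
      (fun γ hγ z hz => af_inv hF hγ (hbij γ hγ) hz) (fun c hc z hz => af_scal hF hc hz) u hu]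
    exact setLIntegral_congr_fun hS.dom.meas fun z hz =>
      wd_rt F hu (dom_det hS.one_le hS.dom hz)
  rw [af_nU hVLM hMSR hS hF, af_nU hVLM hMSR hS (af_rt hF hu)] at h0
  have h3 := congrArg ENNReal.toReal h0
  rwa [ENNReal.toReal_ofReal (nu_nn D F), ENNReal.toReal_ofReal (nu_nn D _)] at h3

/-- polarisation -/
theorem nu_comb (hVLM : T_VLM) (hS : SysZ m N T D) (hF : Af m N F) (hG : Af m N G) (c : ℂ) :
    nU D (fun g x => F g x + c * G g x) =
      nU D F + ‖c‖ ^ 2 * nU D G + 2 * ((starRingEnd ℂ) c * ip D F G).re := by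
  unfold nU ip
  rw [Finset.mul_sum, Finset.mul_sum, Complex.re_sum, Finset.mul_sum, ← Finset.sum_add_distrib,
    ← Finset.sum_add_distrib]
  refine Finset.sum_congr rfl fun x _ => ?_
  have e : ∀ z : V m, ‖F (mt z) x + c * G (mt z) x‖ ^ 2 =
      ‖F (mt z) x‖ ^ 2 + ‖c‖ ^ 2 * ‖G (mt z) x‖ ^ 2 +
        2 * ((starRingEnd ℂ) c * (F (mt z) x * (starRingEnd ℂ) (G (mt z) x))).re := by
    intro z
    rw [← Complex.normSq_eq_norm_sq, ← Complex.normSq_eq_norm_sq, ← Complex.normSq_eq_norm_sq,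
      ← Complex.normSq_eq_norm_sq, Complex.normSq_add, Complex.normSq_mul, map_mul]
    congr 3
    ring
  have hi : Integrable (fun z : V m => (starRingEnd ℂ) c *
      (F (mt z) x * (starRingEnd ℂ) (G (mt z) x))) ((hm m).restrict D) :=
    (af_int hVLM hS hF hG x).const_mul _
  have h1 : ∫ z in D, ((starRingEnd ℂ) c *
      (F (mt z) x * (starRingEnd ℂ) (G (mt z) x))).re ∂(hm m) =
      ((starRingEnd ℂ) c * ∫ z in D, F (mt z) x * (starRingEnd ℂ) (G (mt z) x) ∂(hm m)).re := by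
    rw [← integral_const_mul]
    exact Complex.reCLM.integral_comp_comm hi
  have hre : Integrable (fun z : V m => ((starRingEnd ℂ) c *
      (F (mt z) x * (starRingEnd ℂ) (G (mt z) x))).re) ((hm m).restrict D) := hi.re
  calc ∫ z in D, ‖F (mt z) x + c * G (mt z) x‖ ^ 2 ∂(hm m) =
      ∫ z in D, (‖F (mt z) x‖ ^ 2 + ‖c‖ ^ 2 * ‖G (mt z) x‖ ^ 2 +
        2 * ((starRingEnd ℂ) c * (F (mt z) x * (starRingEnd ℂ) (G (mt z) x))).re) ∂(hm m) :=
        integral_congr_ae (Filter.Eventually.of_forall e)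
    _ = _ := by
        rw [int3 (af_int2 hVLM hS hF x) (af_int2 hVLM hS hG x) hre, h1]

theorem ip_rt (hVLM : T_VLM) (hRTI : T_RTI) (hALU : T_ALU) (hMSR : T_MSR)
    (hS : SysZ m N T D) (hF : Af m N F) (hG : Af m N G) {u : Mat m} (hu : u.det ≠ 0) :
    ip D (rt u F) (rt u G) = ip D F G := by
  have key : ∀ c : ℂ, ((starRingEnd ℂ) c * ip D (rt u F) (rt u G)).re =
      ((starRingEnd ℂ) c * ip D F G).re := by
    intro c
    have h1 := nu_comb hVLM hS hF hG c
    have h2 := nu_comb hVLM hS (af_rt hF hu) (af_rt hG hu) c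
    have h3 : nU D (fun g x => rt u F g x + c * rt u G g x) =
        nU D (fun g x => F g x + c * G g x) :=
      af_nu_rt hVLM hRTI hALU hMSR hS (af_comb hF hG c) hu
    rw [h3, h1, af_nu_rt hVLM hRTI hALU hMSR hS hF hu, af_nu_rt hVLM hRTI hALU hMSR hS hG hu] at h2
    linarith
  have k1 := key 1
  have k2 := key Complex.I
  simp only [map_one, one_mul, Complex.conj_I, neg_mul, Complex.neg_re, Complex.mul_re,
    Complex.I_re, Complex.I_im, zero_mul, one_mul, zero_sub, neg_neg] at k1 k2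
  exact Complex.ext k1 k2

theorem ip_cs (hVLM : T_VLM) (hS : SysZ m N T D) (hF : Af m N F) (hG : Af m N G) :
    ‖ip D F G‖ ^ 2 ≤ nU D F * nU D G := by
  obtain ⟨S, hSd⟩ : ∃ S : ℝ, S = ∑ x, ∫ z in D, ‖F (mt z) x‖ * ‖G (mt z) x‖ ∂(hm m) := ⟨_, rfl⟩
  have h1 : ‖ip D F G‖ ≤ S := by
    rw [hSd]
    unfold ip
    refine (norm_sum_le _ _).trans (Finset.sum_le_sum fun x _ => ?_)
    refine (norm_integral_le_integral_norm _).trans (le_of_eq ?_)
    refine integral_congr_ae (Filter.Eventually.of_forall fun z => ?_)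
    show ‖F (mt z) x * (starRingEnd ℂ) (G (mt z) x)‖ = _
    rw [norm_mul, RCLike.norm_conj]
  have h2 : ∀ t : ℝ, 0 ≤ nU D G * (t * t) + (-2 * S) * t + nU D F := by
    intro t
    have h3 : nU D G * (t * t) + (-2 * S) * t + nU D F =
        ∑ x, ∫ z in D, (‖F (mt z) x‖ - t * ‖G (mt z) x‖) ^ 2 ∂(hm m) := by
      rw [hSd]
      unfold nU
      rw [Finset.sum_mul, Finset.mul_sum, Finset.sum_mul, ← Finset.sum_add_distrib,
        ← Finset.sum_add_distrib]
      refine Finset.sum_congr rfl fun x _ => ?_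
      have e : ∀ z : V m, (‖F (mt z) x‖ - t * ‖G (mt z) x‖) ^ 2 =
          ‖F (mt z) x‖ ^ 2 + (t * t) * ‖G (mt z) x‖ ^ 2 +
            (-2 * t) * (‖F (mt z) x‖ * ‖G (mt z) x‖) := fun z => by ring
      rw [integral_congr_ae (Filter.Eventually.of_forall e),
        int3 (af_int2 hVLM hS hF x) (af_int2 hVLM hS hG x) (af_intn hVLM hS hF hG x)]
      ring
    rw [h3]
    exact Finset.sum_nonneg fun x _ => integral_nonneg fun z => sq_nonneg _
  have h4 := discrim_le_zero h2
  unfold discrim at h4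
  have h5 : ‖ip D F G‖ ^ 2 ≤ S ^ 2 := pow_le_pow_left₀ (norm_nonneg _) h1 2
  nlinarith

theorem ip_cont (hVLM : T_VLM) (hS : SysZ m N T D) (hF : Af m N F) (hG : Af m N G) :
    ContinuousOn (fun p : V m × V m => ip D (rt (mt p.1) F) (rt (mt p.2) G))
      {p | (mt p.1).det ≠ 0 ∧ (mt p.2).det ≠ 0} := by
  have hfm := dom_fin hVLM hS
  obtain ⟨B1, hB1⟩ := hF.bdd
  obtain ⟨B2, hB2⟩ := hG.bdd
  have hcm : Continuous fun z : V m => mt z := Pool.Agent.H34.GM.th1_cmt
  unfold ip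
  refine continuousOn_finsetSum _ fun x _ => ?_
  intro p0 hp0
  refine tendsto_integral_filter_of_dominated_convergence (fun _ => |B1| * |B2|) ?_ ?_
    (integrable_const _) ?_
  · filter_upwards [self_mem_nhdsWithin] with p hp
    exact (af_sm hS (af_rt hF hp.1) x).mul
      (Complex.continuous_conj.comp_aestronglyMeasurable (af_sm hS (af_rt hG hp.2) x))
  · filter_upwards [self_mem_nhdsWithin] with p hp
    rw [ae_restrict_iff' hS.dom.meas]
    refine Filter.Eventually.of_forall fun z hz => ?_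
    have hzd := dom_det hS.one_le hS.dom hz
    rw [norm_mul, RCLike.norm_conj]
    refine mul_le_mul ((hB1 (mt z * mt p.1) x ?_).trans (le_abs_self _))
      ((hB2 (mt z * mt p.2) x ?_).trans (le_abs_self _)) (norm_nonneg _) (abs_nonneg _)
    · rw [Matrix.det_mul]
      exact mul_ne_zero hzd hp.1
    · rw [Matrix.det_mul]
      exact mul_ne_zero hzd hp.2
  · rw [ae_restrict_iff' hS.dom.meas]
    refine Filter.Eventually.of_forall fun z hz => ?_
    have hzd := dom_det hS.one_le hS.dom hz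
    have c1 : ContinuousOn (fun p : V m × V m => F (mt z * mt p.1) x)
        {p | (mt p.1).det ≠ 0 ∧ (mt p.2).det ≠ 0} := by
      refine (hF.cont x).comp
        (continuous_const.mul (hcm.comp continuous_fst)).continuousOn fun p hp => ?_
      show (mt z * mt p.1).det ≠ 0
      rw [Matrix.det_mul]
      exact mul_ne_zero hzd hp.1
    have c2 : ContinuousOn (fun p : V m × V m => G (mt z * mt p.2) x)
        {p | (mt p.1).det ≠ 0 ∧ (mt p.2).det ≠ 0} := by
      refine (hG.cont x).comp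
        (continuous_const.mul (hcm.comp continuous_snd)).continuousOn fun p hp => ?_
      show (mt z * mt p.2).det ≠ 0
      rw [Matrix.det_mul]
      exact mul_ne_zero hzd hp.2
    exact (c1.mul (Complex.continuous_conj.comp_continuousOn c2)) p0 hp0

theorem pf_IPT (hVLM : T_VLM) (hRTI : T_RTI) (hALU : T_ALU) (hMSR : T_MSR) : T_IPT := by
  intro m N _ T D hS F G lam lam' hF hG
  have aF := af_of hF
  have aG := af_of hG
  refine ⟨fun w hw => ⟨rt_heca hF hw, rt_nu hVLM hRTI hALU hMSR hS hF hw,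
    ip_rt hVLM hRTI hALU hMSR hS aF aG hw⟩, ip_cs hVLM hS aF aG, ?_, ?_, ip_cont hVLM hS aF aG⟩
  · unfold ip nU
    push_cast
    refine Finset.sum_congr rfl fun x _ => ?_
    rw [← integral_complex_ofReal]
    refine integral_congr_ae (Filter.Eventually.of_forall fun z => ?_)
    show F (mt z) x * (starRingEnd ℂ) (F (mt z) x) = ((‖F (mt z) x‖ ^ 2 : ℝ) : ℂ)
    rw [Complex.mul_conj, Complex.normSq_eq_norm_sq]
  · unfold ip
    rw [map_sum]
    refine Finset.sum_congr rfl fun x _ => ?_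
    rw [← integral_conj]
    refine integral_congr_ae (Filter.Eventually.of_forall fun z => ?_)
    show G (mt z) x * (starRingEnd ℂ) (F (mt z) x) =
      (starRingEnd ℂ) (F (mt z) x * (starRingEnd ℂ) (G (mt z) x))
    rw [map_mul, Complex.conj_conj, mul_comm]

end Pool.Agent.H88.GHK
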